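import Mathlib
import Pool.Agent.H15.G.R_seed8.H932R5.Final

set_option autoImplicit false

/-!
# Collision of groups of points into fat points (copied from helper852's NB/Collide)

If no polynomial of degree less than `A j` vanishes at the fat points of the `j`-th group, and no
polynomial of degree at most `d` vanishes to order `A j` at the points `Q j`, then no polynomial of
degree at most `d` vanishes at the fat points of all groups, moved by small homotheties to the
points `Q j`.
-/

namespace Pool.Agent.H350R3.NB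

open MvPolynomial Pool.Agent.H932R5

universe u

section ring

variable {T : Type u} [CommRing T] {E : ℕ}

/-- Translation. -/
noncomputable def sh (P : Fin (E + 1) → T) :
    MvPolynomial (Fin (E + 1)) T →ₐ[T] MvPolynomial (Fin (E + 1)) T :=
  aeval (fun j => X j + C (P j))

theorem sh_X (P : Fin (E + 1) → T) (j : Fin (E + 1)) : sh P (X j) = X j + C (P j) := by
  simp [sh]

theorem sh_C (P : Fin (E + 1) → T) (a : T) : sh P (C a) = C a := (sh P).commutes a

theorem sh_sh (P Q : Fin (E + 1) → T) (f : MvPolynomial (Fin (E + 1)) T) :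
    sh P (sh Q f) = sh (fun j => P j + Q j) f := by
  have h : (sh P).comp (sh Q) = sh (fun j => P j + Q j) := by
    refine MvPolynomial.algHom_ext fun i => ?_
    rw [AlgHom.comp_apply, sh_X, map_add, sh_X, sh_C, sh_X, C_add]
    ring
  exact AlgHom.congr_fun h f

/-- Homothety. -/
noncomputable def sc (c : T) :
    MvPolynomial (Fin (E + 1)) T →ₐ[T] MvPolynomial (Fin (E + 1)) T :=
  aeval (fun j => C c * X j)

theorem sc_X (c : T) (j : Fin (E + 1)) : sc c (X j) = C c * X j := by
  simp [sc]

theorem sc_C (c a : T) : sc (E := E) c (C a) = C a := (sc c).commutes a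

theorem sh_sc (P : Fin (E + 1) → T) (c : T) (f : MvPolynomial (Fin (E + 1)) T) :
    sh P (sc c f) = sc c (sh (fun j => c * P j) f) := by
  have h : (sh P).comp (sc c) = (sc c).comp (sh (fun j => c * P j)) := by
    refine MvPolynomial.algHom_ext fun i => ?_
    rw [AlgHom.comp_apply, AlgHom.comp_apply, sc_X, map_mul, sh_C, sh_X, sh_X, map_add, sc_X,
      sc_C, C_mul]
    ring
  exact AlgHom.congr_fun h f

theorem coeff_sc (c : T) (f : MvPolynomial (Fin (E + 1)) T) (α : Fin (E + 1) →₀ ℕ) :
    coeff α (sc c f) = c ^ Finsupp.degree α * coeff α f := by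
  classical
  induction f using MvPolynomial.induction_on' with
  | monomial β a =>
    have h1 : sc c (monomial β a) = monomial β (c ^ Finsupp.degree β * a) := by
      unfold sc
      rw [aeval_monomial, Finsupp.prod_fintype _ _ (fun i => by simp)]
      have h2 : ∏ i, (C c * X i : MvPolynomial (Fin (E + 1)) T) ^ β i =
          C (c ^ Finsupp.degree β) * ∏ i, X i ^ β i := by
        rw [Finsupp.degree_eq_sum]
        simp only [mul_pow, Finset.prod_mul_distrib, Finset.prod_pow_eq_pow_sum, C_pow]
      rw [h2, monomial_eq, Finsupp.prod_fintype _ _ (fun i => by simp), C_mul]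
      show C a * _ = _
      ring
    rw [h1, coeff_monomial, coeff_monomial]
    by_cases h : β = α
    · rw [if_pos h, if_pos h, h]
    · rw [if_neg h, if_neg h, mul_zero]
  | add p q hp hq => rw [map_add, coeff_add, coeff_add, hp, hq, mul_add]

end ring

section field

variable {K : Type u} [Field K] {E : ℕ}

/-- Specialisation of the parameter. -/
noncomputable def ev (t : K) : MvPolynomial (Fin (E + 1)) (Polynomial K) →+*
    MvPolynomial (Fin (E + 1)) K := map (Polynomial.evalRingHom t)

theorem coeff_ev (t : K) (f : MvPolynomial (Fin (E + 1)) (Polynomial K))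
    (α : Fin (E + 1) →₀ ℕ) : coeff α (ev t f) = (coeff α f).eval t := by
  unfold ev
  rw [coeff_map]
  rfl

theorem ev_sh (t : K) (P : Fin (E + 1) → Polynomial K)
    (f : MvPolynomial (Fin (E + 1)) (Polynomial K)) :
    ev t (sh P f) = shift (fun j => (P j).eval t) (ev t f) := by
  have h : (ev (E := E) t).comp ((sh P : MvPolynomial (Fin (E + 1)) (Polynomial K) →ₐ[_]
        MvPolynomial (Fin (E + 1)) (Polynomial K)) :
        MvPolynomial (Fin (E + 1)) (Polynomial K) →+* MvPolynomial (Fin (E + 1)) (Polynomial K)) =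
      ((shift (fun j => (P j).eval t) : MvPolynomial (Fin (E + 1)) K →ₐ[K]
        MvPolynomial (Fin (E + 1)) K) :
        MvPolynomial (Fin (E + 1)) K →+* MvPolynomial (Fin (E + 1)) K).comp (ev (E := E) t) := by
    refine MvPolynomial.ringHom_ext (fun c => ?_) fun j => ?_
    · rw [RingHom.comp_apply, RingHom.comp_apply, RingHom.coe_coe, sh_C, RingHom.coe_coe]
      unfold ev
      rw [map_C, shift_C]
    · rw [RingHom.comp_apply, RingHom.comp_apply, RingHom.coe_coe, sh_X, RingHom.coe_coe]
      unfold ev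
      rw [map_add, map_X, map_C, shift_X]
      rfl
  exact congrArg (fun φ : MvPolynomial (Fin (E + 1)) (Polynomial K) →+* _ => φ f) h

theorem le_of_X_pow_dvd {a b : ℕ} {c : Polynomial K} (hc : c.eval 0 ≠ 0)
    (h : (Polynomial.X : Polynomial K) ^ a ∣ Polynomial.X ^ b * c) : a ≤ b := by
  by_contra hlt
  push Not at hlt
  obtain ⟨e, rfl⟩ : ∃ e, a = b + (e + 1) := ⟨a - b - 1, by omega⟩
  rw [pow_add] at h
  have h1 := (mul_dvd_mul_iff_left (pow_ne_zero b (Polynomial.X_ne_zero (R := K)))).1 h
  rw [pow_succ] at h1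
  have h2 : Polynomial.X ∣ c := (Dvd.intro_left _ rfl).trans h1
  apply hc
  rw [← Polynomial.coeff_zero_eq_eval_zero]
  exact Polynomial.X_dvd_iff.1 h2

theorem exists_div {f : MvPolynomial (Fin (E + 1)) (Polynomial K)} (hf : f ≠ 0) :
    ∃ (v : ℕ) (f' : MvPolynomial (Fin (E + 1)) (Polynomial K)),
      f = C (Polynomial.X ^ v) * f' ∧ ev 0 f' ≠ 0 := by
  obtain ⟨α, hα⟩ := MvPolynomial.ne_zero_iff.1 hf
  have key : ∀ m : ℕ, ∀ f : MvPolynomial (Fin (E + 1)) (Polynomial K), coeff α f ≠ 0 →
      (coeff α f).natDegree ≤ m → ∃ (v : ℕ) (f' : MvPolynomial (Fin (E + 1)) (Polynomial K)),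
      f = C (Polynomial.X ^ v) * f' ∧ ev 0 f' ≠ 0 := by
    intro m
    induction m with
    | zero =>
      intro f hf hm
      refine ⟨0, f, by simp, fun h0 => ?_⟩
      have h1 := congrArg (coeff α) h0
      rw [coeff_ev, coeff_zero, Polynomial.eq_C_of_natDegree_le_zero hm, Polynomial.eval_C] at h1
      apply hf
      rw [Polynomial.eq_C_of_natDegree_le_zero hm, h1, Polynomial.C_0]
    | succ m ih =>
      intro f hf hm
      by_cases hred : ev 0 f = 0
      · have hdvd : C (Polynomial.X : Polynomial K) ∣ f := by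
          rw [C_dvd_iff_dvd_coeff]
          intro β
          have h1 := congrArg (coeff β) hred
          rw [coeff_ev, coeff_zero] at h1
          rw [Polynomial.X_dvd_iff, Polynomial.coeff_zero_eq_eval_zero]
          exact h1
        obtain ⟨f1, rfl⟩ := hdvd
        rw [coeff_C_mul] at hf hm
        have hf1 : coeff α f1 ≠ 0 := right_ne_zero_of_mul hf
        rw [Polynomial.natDegree_X_mul hf1] at hm
        obtain ⟨v, f', h1, h2⟩ := ih f1 hf1 (by omega)
        refine ⟨v + 1, f', ?_, h2⟩
        rw [h1, pow_succ, C_mul]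
        ring
      · exact ⟨0, f, by simp, hred⟩
  exact key _ f hα le_rfl

/-- The limit argument. -/
theorem no_family {n s d : ℕ} {g : Fin n → Fin s} {w : Fin n → ℕ} {A : Fin s → ℕ}
    {Q : Fin s → Fin (E + 1) → K} (hQ : EmptyAt A Q d) {R : Fin n → Fin (E + 1) → K}
    (hR : ∀ j, ∀ f : MvPolynomial (Fin (E + 1)) K, (∀ i, g i = j → f ∈ pt (R i) ^ w i) →
      (∀ α, coeff α f ≠ 0 → Finsupp.degree α < A j) → f = 0)
    {f : MvPolynomial (Fin (E + 1)) (Polynomial K)}
    (hf : ∀ i, ∀ β, Finsupp.degree β < w i → coeff β (sh (fun k =>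
      Polynomial.X * Polynomial.C (R i k) + Polynomial.C (Q (g i) k)) f) = 0)
    (hd : ∀ α, coeff α f ≠ 0 → α ∈ Td E d) : f = 0 := by
  by_contra hne
  obtain ⟨v, f', rfl, hred⟩ := exists_div hne
  have hX : ∀ a : ℕ, (Polynomial.X : Polynomial K) ^ a ≠ 0 := fun a =>
    pow_ne_zero a Polynomial.X_ne_zero
  have hf' : ∀ i, ∀ β, Finsupp.degree β < w i → coeff β (sh (fun k =>
      Polynomial.X * Polynomial.C (R i k) + Polynomial.C (Q (g i) k)) f') = 0 := by
    intro i β hβ
    have h1 := hf i β hβ
    rw [map_mul, sh_C, coeff_C_mul] at h1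
    exact (mul_eq_zero.1 h1).resolve_left (hX v)
  have hd' : ∀ α, coeff α f' ≠ 0 → α ∈ Td E d := by
    intro α hα
    refine hd α ?_
    rw [coeff_C_mul]
    exact mul_ne_zero (hX v) hα
  apply hred
  refine hQ _ ?_ fun α hα => hd' α fun h0 => hα (by rw [coeff_ev, h0, Polynomial.eval_zero])
  rw [mem_Z]
  intro j
  rw [mem_pt_pow_iff]
  intro β hβ
  by_contra hcon
  obtain ⟨gg, hgg⟩ : ∃ gg, gg = sh (fun k => Polynomial.C (Q j k)) f' := ⟨_, rfl⟩
  have h1 : (coeff β gg).eval 0 ≠ 0 := by
    rw [← coeff_ev, hgg, ev_sh]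
    simpa using hcon
  obtain ⟨h, hh⟩ : ∃ h, h = sc (Polynomial.X : Polynomial K) gg := ⟨_, rfl⟩
  have hcoeff : ∀ α, coeff α h = Polynomial.X ^ Finsupp.degree α * coeff α gg := by
    intro α
    rw [hh, coeff_sc]
  have hne' : h ≠ 0 := by
    intro h0
    have h2 := hcoeff β
    rw [h0, coeff_zero] at h2
    rcases mul_eq_zero.1 h2.symm with h3 | h3
    · exact hX _ h3
    · apply h1
      rw [h3, Polynomial.eval_zero]
  obtain ⟨v', h', hdiv, hred'⟩ := exists_div hne'
  have hcoeff' : ∀ α, coeff α h = Polynomial.X ^ v' * coeff α h' := by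
    intro α
    rw [hdiv, coeff_C_mul]
  have hv' : v' ≤ Finsupp.degree β := by
    refine le_of_X_pow_dvd h1 ?_
    rw [← hcoeff, hcoeff']
    exact Dvd.intro _ rfl
  apply hred'
  refine hR j (ev 0 h') (fun i hi => ?_) fun α hα => ?_
  · rw [mem_pt_pow_iff]
    intro γ hγ
    have h2 : ev 0 (sh (fun k => Polynomial.C (R i k)) h') = shift (R i) (ev 0 h') := by
      rw [ev_sh]
      simp
    rw [← h2, coeff_ev]
    have h3 : coeff γ (sh (fun k => Polynomial.C (R i k)) h) = 0 := by
      rw [hh, sh_sc, coeff_sc, hgg, sh_sh]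
      have h4 := hf' i γ hγ
      rw [hi] at h4
      rw [h4, mul_zero]
    rw [hdiv, map_mul, sh_C, coeff_C_mul] at h3
    rw [(mul_eq_zero.1 h3).resolve_left (hX v'), Polynomial.eval_zero]
  · rw [coeff_ev] at hα
    have h2 : Finsupp.degree α ≤ v' := by
      refine le_of_X_pow_dvd hα ?_
      rw [← hcoeff', hcoeff]
      exact Dvd.intro _ rfl
    omega

theorem eq_sum_dg {R' : Type*} [CommRing R'] {d : ℕ} {f : MvPolynomial (Fin (E + 1)) R'}
    (h : ∀ α, coeff α f ≠ 0 → α ∈ dg E (d + 1)) :
    f = ∑ α : {a // a ∈ dg E (d + 1)}, monomial α.1 (coeff α.1 f) := by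
  classical
  refine MvPolynomial.ext _ _ fun β => ?_
  rw [coeff_sum]
  by_cases hβ : β ∈ dg E (d + 1)
  · rw [Finset.sum_eq_single ⟨β, hβ⟩, coeff_monomial, if_pos rfl]
    · intro b _ hb
      rw [coeff_monomial, if_neg]
      exact fun h0 => hb (Subtype.ext h0)
    · intro h0
      exact absurd (Finset.mem_univ _) h0
  · have h1 : coeff β f = 0 := by
      by_contra h0
      exact hβ (h β h0)
    rw [h1]
    refine (Finset.sum_eq_zero fun b _ => ?_).symm
    rw [coeff_monomial, if_neg]
    exact fun h0 => hβ (h0 ▸ b.2)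

/-- The exponents of degree at most `d`. -/
abbrev SS (E d : ℕ) : Type := {a : Fin (E + 1) →₀ ℕ // a ∈ dg E (d + 1)}

/-- Rational functions. -/
abbrev FF (K : Type u) [Field K] : Type u := FractionRing (Polynomial K)

/-- **Collision.** -/
theorem exists_collide [Infinite K] {n s d : ℕ} {g : Fin n → Fin s} {w : Fin n → ℕ}
    {A : Fin s → ℕ} {Q : Fin s → Fin (E + 1) → K} (hQ : EmptyAt A Q d)
    {R : Fin n → Fin (E + 1) → K}
    (hR : ∀ j, ∀ f : MvPolynomial (Fin (E + 1)) K, (∀ i, g i = j → f ∈ pt (R i) ^ w i) →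
      (∀ α, coeff α f ≠ 0 → Finsupp.degree α < A j) → f = 0) :
    ∃ x : Fin n → Fin (E + 1) → K, EmptyAt w x d := by
  classical
  let x' : Fin n → Fin (E + 1) → Polynomial K := fun i k =>
    Polynomial.X * Polynomial.C (R i k) + Polynomial.C (Q (g i) k)
  let M : Matrix (Cnd E w) (SS E d) (Polynomial K) := fun p α =>
    coeff p.2.1 (sh (x' p.1) (monomial α.1 1))
  have hsum : ∀ (u : SS E d → Polynomial K) (p : Cnd E w), (M.mulVec u) p =
      coeff p.2.1 (sh (x' p.1) (∑ α : SS E d, monomial α.1 (u α))) := by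
    intro u p
    rw [map_sum, coeff_sum]
    refine Finset.sum_congr rfl fun α _ => ?_
    have h1 : monomial α.1 (u α) = C (u α) * monomial α.1 (1 : Polynomial K) := by
      rw [C_mul_monomial, mul_one]
    rw [h1, map_mul, sh_C, coeff_C_mul]
    show coeff p.2.1 (sh (x' p.1) (monomial α.1 1)) * u α = _
    ring
  have hM : ∀ u : SS E d → Polynomial K, M.mulVec u = 0 → u = 0 := by
    intro u hu
    have hcoeff : ∀ α : SS E d, coeff α.1 (∑ β : SS E d, monomial β.1 (u β)) = u α := by
      intro α
      rw [coeff_sum, Finset.sum_eq_single α, coeff_monomial, if_pos rfl]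
      · intro b _ hb
        rw [coeff_monomial, if_neg]
        exact fun h0 => hb (Subtype.ext h0)
      · intro h0
        exact absurd (Finset.mem_univ _) h0
    have h1 : (∑ β : SS E d, monomial β.1 (u β)) = 0 := by
      refine no_family hQ hR (fun i β hβ => ?_) fun α hα => ?_
      · have h2 := congrFun hu ⟨i, ⟨β, mem_dg.2 hβ⟩⟩
        rw [hsum] at h2
        exact h2
      · rw [← coe_dg]
        by_contra h0
        apply hα
        rw [coeff_sum]
        refine Finset.sum_eq_zero fun b _ => ?_
        rw [coeff_monomial, if_neg]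
        exact fun h2 => h0 (h2 ▸ b.2)
    funext α
    rw [← hcoeff α, h1, coeff_zero]
    rfl
  let MF : Matrix (Cnd E w) (SS E d) (FF K) := M.map (algebraMap (Polynomial K) (FF K))
  have hMF : ∀ u : SS E d → FF K, MF.mulVec u = 0 → u = 0 := by
    intro u hu
    obtain ⟨b, hb⟩ := IsLocalization.exist_integer_multiples_of_finite
      (nonZeroDivisors (Polynomial K)) u
    choose c hc using hb
    have h1 : M.mulVec c = 0 := by
      funext p
      apply IsFractionRing.injective (Polynomial K) (FF K)
      rw [Pi.zero_apply, map_zero]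
      have h2 := congrFun hu p
      have h3 : algebraMap (Polynomial K) (FF K) ((M.mulVec c) p) =
          algebraMap (Polynomial K) (FF K) b * (MF.mulVec u) p := by
        show algebraMap (Polynomial K) (FF K) (∑ α, M p α * c α) =
          algebraMap (Polynomial K) (FF K) b * ∑ α, MF p α * u α
        rw [map_sum, Finset.mul_sum]
        refine Finset.sum_congr rfl fun α _ => ?_
        rw [map_mul, hc, Algebra.smul_def]
        show algebraMap (Polynomial K) (FF K) (M p α) * _ = _ * (algebraMap (Polynomial K) (FF K) (M p α) * _)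
        ring
      rw [h3, h2, Pi.zero_apply, mul_zero]
    have h2 := hM c h1
    funext α
    have h3 := hc α
    rw [h2, Pi.zero_apply, map_zero, Algebra.smul_def] at h3
    have h4 : algebraMap (Polynomial K) (FF K) b ≠ 0 := by
      intro h0
      have h5 := (IsFractionRing.injective (Polynomial K) (FF K)) (h0.trans (map_zero _).symm)
      exact nonZeroDivisors.ne_zero b.2 h5
    exact (mul_eq_zero.1 h3.symm).resolve_left h4
  have hker : LinearMap.ker (Matrix.toLin' MF) = ⊥ := by
    rw [LinearMap.ker_eq_bot']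
    intro u hu
    exact hMF u (by rwa [Matrix.toLin'_apply] at hu)
  obtain ⟨G, hG⟩ := LinearMap.exists_leftInverse_of_injective (Matrix.toLin' MF) hker
  have hG1 : LinearMap.toMatrix' G * MF = 1 := by
    have h1 := congrArg LinearMap.toMatrix' hG
    rwa [LinearMap.toMatrix'_comp, LinearMap.toMatrix'_toLin', LinearMap.toMatrix'_id] at h1
  obtain ⟨b, hb⟩ := IsLocalization.exist_integer_multiples_of_finite
    (nonZeroDivisors (Polynomial K)) (fun q : SS E d × Cnd E w => LinearMap.toMatrix' G q.1 q.2)
  choose c hc using hb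
  have hcM : ∀ α α' : SS E d, ∑ p, c (α, p) * M p α' = if α = α' then (b : Polynomial K) else 0 := by
    intro α α'
    apply IsFractionRing.injective (Polynomial K) (FF K)
    rw [map_sum]
    have h1 := congrFun (congrFun hG1 α) α'
    rw [Matrix.mul_apply, Matrix.one_apply] at h1
    have h2 : ∑ p, algebraMap (Polynomial K) (FF K) (c (α, p) * M p α') =
        algebraMap (Polynomial K) (FF K) b * ∑ p, LinearMap.toMatrix' G α p * MF p α' := by
      rw [Finset.mul_sum]
      refine Finset.sum_congr rfl fun p _ => ?_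
      rw [map_mul, hc, Algebra.smul_def]
      show _ * algebraMap (Polynomial K) (FF K) (M p α') = _ * (_ * algebraMap (Polynomial K) (FF K) (M p α'))
      ring
    rw [h2, h1]
    split_ifs
    · rw [mul_one]
    · rw [mul_zero, map_zero]
  have hb0 : (b : Polynomial K) ≠ 0 := nonZeroDivisors.ne_zero b.2
  obtain ⟨t, ht⟩ : ∃ t : K, (b : Polynomial K).eval t ≠ 0 := by
    by_contra hcon
    push Not at hcon
    exact hb0 (Polynomial.funext fun r => by rw [hcon r, Polynomial.eval_zero])
  refine ⟨fun i k => (x' i k).eval t, fun f hf hfd => ?_⟩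
  have hfd' : ∀ α, coeff α f ≠ 0 → α ∈ dg E (d + 1) := by
    intro α hα
    have h1 := hfd α hα
    rw [← coe_dg] at h1
    exact h1
  have hMt : ∀ p : Cnd E w, ∑ α : SS E d, (M p α).eval t * coeff α.1 f = 0 := by
    intro p
    have h1 := congrFun (mem_Z_iff.1 hf) p
    rw [cnd_apply, Pi.zero_apply, eq_sum_dg hfd', map_sum, coeff_sum] at h1
    rw [← h1]
    refine Finset.sum_congr rfl fun α _ => ?_
    have h2 : monomial α.1 (coeff α.1 f) = C (coeff α.1 f) * monomial α.1 (1 : K) := by
      rw [C_mul_monomial, mul_one]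
    rw [h2, map_mul, shift_C, coeff_C_mul]
    have h3 : (M p α).eval t = coeff p.2.1 (shift (fun k => (x' p.1 k).eval t)
        (monomial α.1 (1 : K))) := by
      show (coeff p.2.1 (sh (x' p.1) (monomial α.1 1))).eval t = _
      rw [← coeff_ev, ev_sh]
      congr 2
      unfold ev
      rw [map_monomial, map_one]
    rw [h3]
    ring
  have hzero : ∀ α : SS E d, coeff α.1 f = 0 := by
    intro α
    have h1 : ∑ p, (c (α, p)).eval t * ∑ α' : SS E d, (M p α').eval t * coeff α'.1 f = 0 :=
      Finset.sum_eq_zero fun p _ => by rw [hMt p, mul_zero]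
    have h2 : ∑ p, (c (α, p)).eval t * ∑ α' : SS E d, (M p α').eval t * coeff α'.1 f =
        ∑ α' : SS E d, (∑ p, c (α, p) * M p α').eval t * coeff α'.1 f := by
      simp only [Finset.mul_sum, Polynomial.eval_finsetSum, Finset.sum_mul, Polynomial.eval_mul]
      rw [Finset.sum_comm]
      refine Finset.sum_congr rfl fun α' _ => Finset.sum_congr rfl fun p _ => ?_
      ring
    rw [h2] at h1
    simp only [hcM] at h1
    rw [Finset.sum_eq_single α] at h1
    · rw [if_pos rfl] at h1
      exact (mul_eq_zero.1 h1).resolve_left ht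
    · intro b' _ hb'
      rw [if_neg (fun h0 => hb' h0.symm), Polynomial.eval_zero, zero_mul]
    · intro h0
      exact absurd (Finset.mem_univ _) h0
  rw [eq_sum_dg hfd']
  exact Finset.sum_eq_zero fun α _ => by rw [hzero α, monomial_zero]

end field

end Pool.Agent.H350R3.NB
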