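import Mathlib
import Pool.Agent.H15.G.R_seed8.H350R3.NB.Nf

set_option autoImplicit false

/-!
# Strict weighted inequalities for points, and their composition
-/

namespace Pool.Agent.H350R3.NB

open MvPolynomial Pool.Agent.H932R5

universe u

variable {K : Type u} [Field K]

/-- The strict inequality `∑ t i * w i < c * d` for the multiplicities `w` of the polynomials of
degree `d ≥ 1` at suitable (general) points. -/
def NfS (K : Type u) [Field K] {ι : Type} [Fintype ι] (t : ι → ℝ) (c : ℝ) : Prop :=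
  ∀ (w : ι → ℕ) (d : ℕ), 0 < d → c * d ≤ ∑ i, t i * w i → ∃ x : ι → Fin (1 + 1) → K, Emp w x d

theorem NfS.equiv {ι κ : Type} [Fintype ι] [Fintype κ] (e : ι ≃ κ) {t : ι → ℝ} {c : ℝ}
    (h : NfS K t c) : NfS K (fun j => t (e.symm j)) c := by
  intro w d hd0 hd
  obtain ⟨x, hx⟩ := h (fun i => w (e i)) d hd0 (by
    rw [← e.symm.sum_comp (fun i => t i * (w (e i) : ℝ))]
    simpa using hd)
  refine ⟨fun j => x (e.symm j), ?_⟩
  have h1 := hx.equiv e
  simpa using h1

theorem NfS.mono {ι : Type} [Fintype ι] {t t' : ι → ℝ} {c : ℝ} (h : NfS K t c)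
    (ht : ∀ i, t' i ≤ t i) : NfS K t' c := by
  intro w d hd0 hd
  refine h w d hd0 ?_
  have h2 : ∑ i, t' i * (w i : ℝ) ≤ ∑ i, t i * (w i : ℝ) := Finset.sum_le_sum fun i _ =>
    mul_le_mul_of_nonneg_right (ht i) (Nat.cast_nonneg _)
  linarith

theorem NfS.scale {ι : Type} [Fintype ι] {t : ι → ℝ} {c : ℝ} (h : NfS K t c) {a : ℝ}
    (ha : 0 < a) : NfS K (fun i => a * t i) (a * c) := by
  intro w d hd0 hd
  have h1 : ∑ i, a * t i * (w i : ℝ) = a * ∑ i, t i * (w i : ℝ) := by
    rw [Finset.mul_sum]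
    exact Finset.sum_congr rfl fun i _ => by ring
  rw [h1, mul_assoc] at hd
  exact h w d hd0 (le_of_mul_le_mul_left hd ha)

/-- **Composition.** -/
theorem NfS.comp [Infinite K] {ι κ : Type} [Fintype ι] [Fintype κ] [DecidableEq κ] (g : ι → κ)
    {τ : κ → ℝ} {c : ℝ} (hτ : ∀ j, 0 ≤ τ j) (h : NfS K τ c) {t : ι → ℝ} {cc : κ → ℝ}
    (hcc : ∀ j, 0 < cc j)
    (hgrp : ∀ j, Nf K (fun i : {i // g i = j} => t i.1) (cc j)) :
    NfS K (fun i => τ (g i) * (t i / cc (g i))) c := by
  classical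
  intro w d hd0 hd
  let S : κ → ℝ := fun j => ∑ i : {i // g i = j}, t i.1 * (w i.1 : ℝ)
  let A : κ → ℕ := fun j => ⌈S j / cc j⌉₊
  have hsum : ∑ i, τ (g i) * (t i / cc (g i)) * (w i : ℝ) = ∑ j, τ j * (S j / cc j) := by
    rw [← Finset.sum_fiberwise Finset.univ g]
    refine Finset.sum_congr rfl fun j _ => ?_
    have h1 : ∑ i ∈ Finset.univ with g i = j, τ (g i) * (t i / cc (g i)) * (w i : ℝ) =
        ∑ i ∈ Finset.univ with g i = j, τ j / cc j * (t i * (w i : ℝ)) := by
      refine Finset.sum_congr rfl fun i hi => ?_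
      rw [(Finset.mem_filter.1 hi).2]
      ring
    rw [h1, ← Finset.mul_sum]
    have h2 : S j = ∑ i ∈ Finset.univ with g i = j, t i * (w i : ℝ) :=
      (Finset.sum_subtype (Finset.univ.filter fun i => g i = j) (fun i => by simp)
        (fun i => t i * (w i : ℝ))).symm
    rw [← h2]
    ring
  rw [hsum] at hd
  obtain ⟨Q, hQ⟩ := h A d hd0 (le_trans hd (Finset.sum_le_sum fun j _ =>
    mul_le_mul_of_nonneg_left (Nat.le_ceil _) (hτ j)))
  have hR : ∀ j, ∃ R : {i // g i = j} → Fin (1 + 1) → K,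
      ∀ f : MvPolynomial (Fin (1 + 1)) K, (∀ i, f ∈ pt (R i) ^ w i.1) →
      (∀ α, coeff α f ≠ 0 → Finsupp.degree α < A j) → f = 0 := by
    intro j
    rcases Nat.eq_zero_or_pos (A j) with h0 | h0
    · refine ⟨fun _ _ => 0, fun f _ hf => ?_⟩
      refine MvPolynomial.ext _ _ fun α => ?_
      by_contra hα
      have := hf α hα
      omega
    · have h1 : ((A j - 1 : ℕ) : ℝ) < S j / cc j := by
        rw [Nat.cast_sub h0]
        have h2 : (A j : ℝ) < S j / cc j + 1 := by
          have h3 : 0 ≤ S j / cc j := by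
            by_contra hneg
            push Not at hneg
            have h4 : A j = 0 := Nat.ceil_eq_zero.2 hneg.le
            omega
          exact Nat.ceil_lt_add_one h3
        push_cast
        linarith
      obtain ⟨R, hR⟩ := hgrp j (fun i => w i.1) (A j - 1) (by
        rw [lt_div_iff₀ (hcc j)] at h1
        rw [mul_comm]
        exact h1)
      refine ⟨R, fun f hf hd' => hR f hf fun α hα => ?_⟩
      have := hd' α hα
      omega
  choose R hR using hR
  exact emp_collide g hQ (R := fun i => R (g i) ⟨i, rfl⟩) fun j f hf hdeg =>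
    hR j f (fun i => by
      have h1 := hf i.1 i.2
      obtain ⟨i, hi⟩ := i
      subst hi
      exact h1) hdeg

end Pool.Agent.H350R3.NB
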